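import Mathlib
import Pool.Agent.H.MP_328b17_nt.B

open Finset Polynomial

namespace Pool.Agent.Results.MP_9fe52c_nt.Yes

noncomputable def q : RatFunc ℚ := RatFunc.X

noncomputable def qint (m : ℕ) : RatFunc ℚ := (1 - q ^ m) / (1 - q)

noncomputable def poch (a b : RatFunc ℚ) (k : ℕ) : RatFunc ℚ := ∏ j ∈ range k, (1 - a * b ^ j)

noncomputable def S (p : ℕ) : RatFunc ℚ :=
  ∑ j ∈ range p, qint (2 * (p + 1) * j + 1) *
    (poch q (q ^ (p + 1)) j / poch (q ^ (p + 1)) (q ^ (p + 1)) j) ^ (2 * (p + 1)) *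
    q ^ ((p ^ 2 - 1) * j)

def c (p : ℕ) : ℚ := p * (p - 1) * (p + 1) ^ 2 * (2 * p + 1) / 72

noncomputable def D (p : ℕ) : RatFunc ℚ :=
  S p - -RatFunc.C (c p) * q * (1 - q) ^ 2 * qint p ^ 4 *
    algebraMap ℚ[X] (RatFunc ℚ) (cyclotomic (p ^ 2) ℚ)

open Pool.Agent.H.MP_4d1f21_nt Pool.Agent.H.MP_328b17_nt

theorem relS {P : ℚ[X]} [Nontrivial (AdjoinRoot P)] (N : ℕ) {xi w : AdjoinRoot P}
    {f : ℕ → AdjoinRoot P} (hxi : AdjoinRoot.root P * xi = 1) (hw : (1 - AdjoinRoot.root P) * w = 1)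
    (hf : ∀ j, j < N → (1 - (AdjoinRoot.root P ^ (N + 1 + 1)) ^ (j + 1)) * f (j + 1) = 1) :
    Rel P (S (N + 1)) (T (AdjoinRoot.root P ^ (N + 1 + 1)) (xi ^ (N + 1 + 1))
      (AdjoinRoot.root P ^ (N + 1)) (xi ^ (N + 1)) f (N + 1 + 1) (N + 1) * w) := by
  set x := AdjoinRoot.root P
  have rq : Rel P q x := Rel.X
  have hp' : ∀ i, x ^ i * xi ^ i = 1 := fun i => by rw [← mul_pow, hxi, one_pow]
  have rT := rel_T (M := N + 1 + 1) (w := x ^ (N * (N + 2))) (hp' (N + 1 + 1)) (hp' (N + 1)) hf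
    (by linear_combination xi ^ (N + 1 + 1) * hp' (N * (N + 2))) (rq.pow (N + 1 + 1))
    (by
      convert rq using 1
      linear_combination x * hp' (N + 1)) (rq.pow (N * (N + 2)))
  convert rT.mul ((Rel.one.sub rq).inv hw) using 1
  rw [S, sum_mul]
  refine sum_congr rfl fun j _ => ?_
  rw [qint, poch, poch, show (N + 1) ^ 2 - 1 = N * (N + 2) from Nat.sub_eq_of_eq_add (by ring),
    pow_mul q (N * (N + 2))]
  ring

theorem result (p : ℕ) (hp : p.Prime) :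
    cyclotomic (p ^ 2) ℚ * cyclotomic p ℚ ^ 5 ∣ (D p).num ∧
      IsCoprime (D p).denom (cyclotomic (p ^ 2) ℚ * cyclotomic p ℚ ^ 5) := by
  have h2 := hp.two_le
  have hc : ∀ j, j < p - 1 → ¬ p ∣ (p + 1) * (j + 1) := fun j hj h => by
    rcases (hp.dvd_mul).1 h with h | h
    · exact absurd (Nat.le_of_dvd one_pos ((Nat.dvd_add_right dvd_rfl).1 h)) (by omega)
    · exact absurd (Nat.le_of_dvd (by omega) h) (by omega)
  have hpp : p < p ^ 2 := by nlinarith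
  have hΦ : cyclotomic (p ^ 2) ℚ = ∑ i ∈ range p, (X ^ p) ^ i := by
    simpa using cyclotomic_prime_pow_eq_geom_sum (R := ℚ) (n := 1) hp
  obtain ⟨N, rfl⟩ : ∃ N, p = N + 1 := ⟨p - 1, by omega⟩
  have A1 : Rel (cyclotomic ((N + 1) ^ 2) ℚ ^ 1) (D (N + 1)) 0 := by
    have := nontriv (n := (N + 1) ^ 2) (e := 1) (by omega) (by omega)
    have hri := root_inv (n := (N + 1) ^ 2) 1 (by omega)
    have h5 := eps_pow ((N + 1) ^ 2) 1
    have hun := fun j => unit_root (n := (N + 1) ^ 2) (j := j) 1 (by omega)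
    have h0 : AdjoinRoot.mk (cyclotomic ((N + 1) ^ 2) ℚ ^ 1) (cyclotomic ((N + 1) ^ 2) ℚ) = 0 := by
      rw [AdjoinRoot.mk_eq_zero, pow_one]
    set P := cyclotomic ((N + 1) ^ 2) ℚ ^ 1
    set x := AdjoinRoot.root P with hx
    obtain ⟨xi, hxi⟩ := hri
    have hp' : ∀ i, x ^ i * xi ^ i = 1 := fun i => by rw [← mul_pow, hxi, one_pow]
    obtain ⟨f, hf⟩ := ex_f (x ^ (N + 1 + 1)) N fun j hj => by
      rw [← pow_mul]
      exact hun _ fun h => hc j hj ((dvd_pow_self _ two_ne_zero).trans h)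
    obtain ⟨w, hw⟩ := (hun 1 fun h => absurd (Nat.le_of_dvd one_pos h) (by omega)).exists_right_inv
    rw [pow_one] at hw
    have rq : Rel P q x := Rel.X
    have ha := anti (m := N + 1) (hp' (N + 1 + 1)) (hp' (N + 1)) (by ring) hf
      (by linear_combination h5)
    have u2 := ratu (A := AdjoinRoot P) 2 (by norm_num)
    rw [Nat.cast_ofNat] at u2
    rw [u2.mul_right_eq_zero] at ha
    rw [D, qint, div_eq_mul_inv]
    convert (relS N hxi hw hf).sub (((((Rel.rat (c (N + 1))).neg.mul rq).mul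
      ((Rel.one.sub rq).pow 2)).mul ((((Rel.one.sub (rq.pow (N + 1))).mul
        ((Rel.one.sub rq).inv hw))).pow 4)).mul (Rel.poly (cyclotomic ((N + 1) ^ 2) ℚ))) using 1
    rw [ha, h0]; ring
  have A2 : Rel (cyclotomic (N + 1) ℚ ^ 5) (D (N + 1)) 0 := by
    have := nontriv (n := N + 1) (e := 5) (by omega) (by omega)
    have hri := root_inv (n := N + 1) 5 (by omega)
    have h5 := eps_pow (N + 1) 5
    have hun := fun j => unit_root (n := N + 1) (j := j) 5 (by omega)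
    set P := cyclotomic (N + 1) ℚ ^ 5
    set x := AdjoinRoot.root P with hx
    set φ := algebraMap ℚ (AdjoinRoot P)
    obtain ⟨xi, hxi⟩ := hri
    have hp' : ∀ i, x ^ i * xi ^ i = 1 := fun i => by rw [← mul_pow, hxi, one_pow]
    obtain ⟨f, hf⟩ := ex_f (x ^ (N + 1 + 1)) N fun j hj => by
      rw [← pow_mul]
      exact hun _ (hc j hj)
    obtain ⟨w, hw⟩ := (hun 1 fun h => absurd (Nat.le_of_dvd one_pos h) (by omega)).exists_right_inv
    rw [pow_one] at hw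
    have rq : Rel P q x := Rel.X
    have hM := main (m := N + 1) (hp' (N + 1 + 1)) (hp' (N + 1)) (by ring) hf h5
    rw [D, qint, div_eq_mul_inv]
    convert (relS N hxi hw hf).sub (((((Rel.rat (c (N + 1))).neg.mul rq).mul
      ((Rel.one.sub rq).pow 2)).mul ((((Rel.one.sub (rq.pow (N + 1))).mul
        ((Rel.one.sub rq).inv hw))).pow 4)).mul (Rel.poly (cyclotomic ((N + 1) ^ 2) ℚ))) using 1
    set T0 := T (x ^ (N + 1 + 1)) (xi ^ (N + 1 + 1)) (x ^ (N + 1)) (xi ^ (N + 1)) f (N + 1 + 1) (N + 1)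
    have k0 : x ^ (N + 1) - 1 ∣ AdjoinRoot.mk P (cyclotomic ((N + 1) ^ 2) ℚ) - (N + 1) := by
      have : AdjoinRoot.mk P (cyclotomic ((N + 1) ^ 2) ℚ) - (N + 1)
          = ∑ i ∈ range (N + 1), ((x ^ (N + 1)) ^ i - 1) := by
        rw [hΦ, sum_sub_distrib]; simp [hx]
      rw [this]
      exact dvd_sum fun i _ => sub_one_dvd_pow_sub_one _ _
    obtain ⟨σ, hσ⟩ := k0
    have k1 : 72 * φ (c (N + 1)) = (N + 1) * N * (N + 2) ^ 2 * (2 * N + 3) := by
      have : c (N + 1) * 72 = (((N + 1) * N * (N + 2) ^ 2 * (2 * N + 3) : ℕ) : ℚ) := by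
        rw [c]; push_cast; ring
      have h2 := congrArg φ this
      rw [map_mul, map_natCast, map_ofNat] at h2
      push_cast at h2 ⊢
      linear_combination h2
    have k2 : (x ^ (N + 1)) ^ (N + 1 + 1) * xi ^ (N + 1 + 1) = (x ^ (N + 1 + 1)) ^ N := by
      linear_combination (x ^ (N + 1 + 1)) ^ N * hp' (N + 1 + 1)
    have k3 : (x ^ (N + 1 + 1)) ^ N * x = (x ^ (N + 1)) ^ (N + 1) := by ring
    obtain ⟨ρ, hρ⟩ := sub_one_dvd_pow_sub_one (x ^ (N + 1)) (N + 1)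
    have u1 : IsUnit (1 - (x ^ (N + 1 + 1)) ^ N) := by
      have := hf (N - 1) (by omega)
      rw [show N - 1 + 1 = N by omega] at this
      exact IsUnit.of_mul_eq_one _ this
    have u2 := ratu (A := AdjoinRoot P) 72 (by norm_num)
    rw [Nat.cast_ofNat] at u2
    have u3 : IsUnit (1 - x) := IsUnit.of_mul_eq_one _ hw
    rw [k2] at hM
    rw [← k3] at hρ
    symm
    refine ((u2.mul (u1.mul (u3.pow 2))).mul_right_eq_zero).1 ?_
    generalize (x ^ (N + 1 + 1)) ^ N = W at hM hρ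
    rw [show 1 - x ^ (N + 1) = -(x ^ (N + 1) - 1) by ring, eq_add_of_sub_eq hσ]
    generalize x ^ (N + 1) - 1 = e at hM hρ h5
    push_cast at hM
    set K := ((N : AdjoinRoot P) + 1) * N * (N + 2) ^ 2 * (2 * N + 3)
    linear_combination (72 * (1 - W) * (1 - x) * T0) * hw - (1 - x) * hM
      + (1 - W) * (1 - x) ^ 4 * x * e ^ 4 * w ^ 4 * (e * σ + (N + 1)) * k1
      + K * (1 - W) * x * e ^ 4 * (e * σ + (N + 1)) *
        (((1 - x) * w) ^ 3 + ((1 - x) * w) ^ 2 + (1 - x) * w + 1) * hw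
      - K * (N + 1) * e ^ 4 * hρ + (K * (1 - W) * x * σ - K * (N + 1) * ρ) * h5
  obtain ⟨b1, b2⟩ := A1.fin
  obtain ⟨c1, c2⟩ := A2.fin
  rw [pow_one] at b1 b2
  exact ⟨IsCoprime.mul_dvd (cyclotomic.isCoprime_rat (by omega)).pow_right b1 c1, b2.mul_right c2⟩

end Pool.Agent.Results.MP_9fe52c_nt.Yes
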